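import Pool.Agent.Helper52.EK.Defs
set_option autoImplicit false
open Complex MeasureTheory Metric Set
open scoped Real ComplexConjugate

/-! Project EK, modules E3a1 and E3a2: the frames in the strip coordinate. -/

namespace Pool.Agent.Helper97.EK

open Pool.Agent.Helper39.Area Pool.Agent.Helper52.EK

/-- unimodular factor between the frames -/
noncomputable def ph (Z : ℂ) : ℂ := ((‖I + Z‖ / ‖I - Z‖ : ℝ) : ℂ) * ((I - Z) / (I - conj Z))

section basic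

theorem exp_pt (ξ η : ℝ) : Complex.exp (pt ξ η) =
    ((Real.exp ξ : ℝ) : ℂ) * ((Real.cos η : ℂ) + (Real.sin η : ℂ) * I) := by
  unfold pt
  rw [Complex.exp_add, Complex.exp_mul_I, Complex.ofReal_exp, Complex.ofReal_cos,
    Complex.ofReal_sin]

theorem pt_re (ξ η : ℝ) : (pt ξ η).re = ξ := by simp [pt]

theorem pt_im (ξ η : ℝ) : (pt ξ η).im = η := by simp [pt]

theorem exp_pt_im (ξ η : ℝ) : (Complex.exp (pt ξ η)).im = Real.exp ξ * Real.sin η := by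
  rw [Complex.exp_im, pt_re, pt_im]

theorem norm_exp_pt (ξ η : ℝ) : ‖Complex.exp (pt ξ η)‖ = Real.exp ξ := by
  rw [Complex.norm_exp, pt_re]

variable {ξ η : ℝ}

theorem im_pos (h0 : 0 < η) (h1 : η < π) : 0 < (Complex.exp (pt ξ η)).im := by
  rw [exp_pt_im]
  exact mul_pos (Real.exp_pos _) (Real.sin_pos_of_pos_of_lt_pi h0 h1)

theorem norm_lt (hξ : ξ < 0) : ‖Complex.exp (pt ξ η)‖ < 1 := by
  rw [norm_exp_pt, ← Real.exp_zero]
  exact Real.exp_lt_exp.2 hξ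

theorem addI_ne (h0 : 0 < η) (h1 : η < π) : I + Complex.exp (pt ξ η) ≠ 0 := by
  intro h
  have h2 := congrArg Complex.im h
  rw [Complex.add_im, Complex.I_im, Complex.zero_im] at h2
  have := im_pos (ξ := ξ) h0 h1
  linarith

theorem subI_ne (hξ : ξ < 0) : I - Complex.exp (pt ξ η) ≠ 0 := by
  intro h
  have h2 : Complex.exp (pt ξ η) = I := (sub_eq_zero.1 h).symm
  have h3 := norm_lt (η := η) hξ
  rw [h2, Complex.norm_I] at h3
  exact lt_irrefl _ h3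

theorem subconj_ne (h0 : 0 < η) (h1 : η < π) : I - conj (Complex.exp (pt ξ η)) ≠ 0 := by
  intro h
  have h2 := congrArg Complex.im h
  rw [Complex.sub_im, Complex.I_im, Complex.conj_im, Complex.zero_im] at h2
  have := im_pos (ξ := ξ) h0 h1
  linarith

/-- `e₀ = - conj Z / Z` -/
theorem e0_eq (ξ η : ℝ) : e0 (Real.sin η) (Real.cos η) =
    -(conj (Complex.exp (pt ξ η)) / Complex.exp (pt ξ η)) := by
  unfold e0
  rw [eq_neg_iff_add_eq_zero, neg_add_eq_zero, eq_div_iff (Complex.exp_ne_zero _)]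
  rw [exp_pt]
  simp only [map_mul, map_add, Complex.conj_ofReal, Complex.conj_I]
  have h : ((Real.cos η : ℝ) : ℂ) ^ 2 + ((Real.sin η : ℝ) : ℂ) ^ 2 = 1 := by
    rw [add_comm]
    exact_mod_cast Real.sin_sq_add_cos_sq η
  linear_combination (((Real.exp ξ : ℝ) : ℂ) * ((Real.cos η : ℂ) - (Real.sin η : ℂ) * I)) * h -
    (((Real.exp ξ : ℝ) : ℂ) * ((Real.cos η : ℂ) - (Real.sin η : ℂ) * I) *
      ((Real.sin η : ℝ) : ℂ) ^ 2) * Complex.I_sq

theorem conj_zf (ω : ℂ) : conj (zf ω) =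
    (-I - conj (Complex.exp ω)) / (-I + conj (Complex.exp ω)) := by
  unfold zf
  rw [map_div₀, map_sub, map_add, Complex.conj_I]

theorem norm_zf (ω : ℂ) : ‖zf ω‖ = ‖I - Complex.exp ω‖ / ‖I + Complex.exp ω‖ := by
  unfold zf
  rw [norm_div]

theorem frame_alg (Z W r₁ r₂ : ℂ) (hZ : Z ≠ 0) (h1 : I + Z ≠ 0) (h2 : I - Z ≠ 0)
    (h3 : I - W ≠ 0) (hr1 : r₁ ≠ 0) (hr2 : r₂ ≠ 0) :
    (I - Z) / (I + Z) / (r₁ / r₂) * ((1 - (-I - W) / (-I + W) * 1) / (1 - (I - Z) / (I + Z))) =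
      r₂ / r₁ * ((I - Z) / (I - W)) * -(W / Z) := by
  have h3' : -I + W ≠ 0 := by
    intro h
    apply h3
    linear_combination -h
  have e1 : 1 - (-I - W) / (-I + W) * 1 = -(2 * W) / (I - W) := by
    field_simp
    ring
  have e2 : 1 - (I - Z) / (I + Z) = 2 * Z / (I + Z) := by
    field_simp
    ring
  rw [e1, e2]
  field_simp

end basic

/-- E3a -/
theorem E3a1 {ξ η : ℝ} (h0 : 0 < η) (h1 : η < π) (hξ : ξ < 0) :
    (zf (pt ξ η) / ‖zf (pt ξ η)‖) * ee 1 (zf (pt ξ η)) =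
      ph (Complex.exp (pt ξ η)) * e0 (Real.sin η) (Real.cos η) := by
  have a1 := addI_ne (ξ := ξ) h0 h1
  have a2 := subI_ne (η := η) hξ
  have a3 := subconj_ne (ξ := ξ) h0 h1
  rw [e0_eq ξ η, norm_zf]
  unfold ee ph
  rw [conj_zf]
  unfold zf
  rw [Complex.ofReal_div, Complex.ofReal_div]
  exact frame_alg _ _ _ _ (Complex.exp_ne_zero _) a1 a2 a3
    (Complex.ofReal_ne_zero.2 (norm_ne_zero_iff.2 a2))
    (Complex.ofReal_ne_zero.2 (norm_ne_zero_iff.2 a1))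

theorem hasDerivAt_zf {ω : ℂ} (h : I + Complex.exp ω ≠ 0) : HasDerivAt zf (zd ω) ω := by
  have h1 : HasDerivAt (fun ω => (I - Complex.exp ω) / (I + Complex.exp ω))
      ((-Complex.exp ω * (I + Complex.exp ω) - (I - Complex.exp ω) * Complex.exp ω) /
        (I + Complex.exp ω) ^ 2) ω :=
    ((Complex.hasDerivAt_exp ω).const_sub I).div ((Complex.hasDerivAt_exp ω).const_add I) h
  have e : zd ω = (-Complex.exp ω * (I + Complex.exp ω) - (I - Complex.exp ω) * Complex.exp ω) /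
      (I + Complex.exp ω) ^ 2 := by
    unfold zd
    rw [add_comm (Complex.exp ω) I]
    congr 1
    ring
  rw [e]
  exact h1

theorem hasDerivAt_zd {ω : ℂ} (h : I + Complex.exp ω ≠ 0) :
    HasDerivAt zd (zd ω * zf ω) ω := by
  have h0 : Complex.exp ω + I ≠ 0 := by rwa [add_comm]
  have h1 : HasDerivAt (fun ω => -2 * I * Complex.exp ω) (-2 * I * Complex.exp ω) ω :=
    (Complex.hasDerivAt_exp ω).const_mul (-2 * I)
  have h2 : HasDerivAt (fun ω => (Complex.exp ω + I) ^ 2)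
      (((2 : ℕ) : ℂ) * (Complex.exp ω + I) ^ (2 - 1) * Complex.exp ω) ω :=
    ((Complex.hasDerivAt_exp ω).add_const I).pow 2
  have h3 := h1.div h2 (pow_ne_zero 2 h0)
  have e : zd ω * zf ω = (-2 * I * Complex.exp ω * (Complex.exp ω + I) ^ 2 -
      -2 * I * Complex.exp ω * (((2 : ℕ) : ℂ) * (Complex.exp ω + I) ^ (2 - 1) * Complex.exp ω)) /
      ((Complex.exp ω + I) ^ 2) ^ 2 := by
    unfold zd zf
    rw [add_comm I (Complex.exp ω)]
    field_simp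
    push_cast
    ring
  rw [e]
  exact h3

section beta

variable {β : ℂ → ℂ}

theorem dphi_eq {z : ℂ} (hz : z ≠ 0) : dphi β z = - N β z / z ^ 2 := by
  unfold dphi N
  field_simp
  ring

theorem hasDerivAt_deriv (h : Ext β) {z : ℂ} (hz : z ∈ ball (0 : ℂ) 1) :
    HasDerivAt (deriv β) (deriv (deriv β) z) z :=
  ((h.diff.deriv isOpen_ball).differentiableAt (isOpen_ball.mem_nhds hz)).hasDerivAt

theorem hasDerivAt_N (h : Ext β) {z : ℂ} (hz : z ∈ ball (0 : ℂ) 1) :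
    HasDerivAt (N β) (-(2 * z * deriv β z + z ^ 2 * deriv (deriv β) z)) z := by
  have h1 : HasDerivAt (fun z : ℂ => z ^ 2) (((2 : ℕ) : ℂ) * z ^ (2 - 1) * 1) z :=
    (hasDerivAt_id z).pow 2
  have h2 := (h1.mul (hasDerivAt_deriv h hz)).const_sub 1
  have e : -(((2 : ℕ) : ℂ) * z ^ (2 - 1) * 1 * deriv β z + z ^ 2 * deriv (deriv β) z) =
      -(2 * z * deriv β z + z ^ 2 * deriv (deriv β) z) := by
    push_cast
    ring
  rw [← e]
  exact h2

theorem hasDerivAt_dphi (h : Ext β) {z : ℂ} (hz : z ∈ ball (0 : ℂ) 1) (hz0 : z ≠ 0) :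
    HasDerivAt (dphi β) (dphi β z * (deriv (N β) z / N β z - 2 / z)) z := by
  have hN : N β z ≠ 0 := h.ne z hz
  have h1 : HasDerivAt (fun z : ℂ => z ^ 2) (((2 : ℕ) : ℂ) * z ^ (2 - 1) * 1) z :=
    (hasDerivAt_id z).pow 2
  have h2 := (h1.inv (pow_ne_zero 2 hz0)).neg.add (hasDerivAt_deriv h hz)
  have e : dphi β z * (deriv (N β) z / N β z - 2 / z) =
      -(-(((2 : ℕ) : ℂ) * z ^ (2 - 1) * 1) / (z ^ 2) ^ 2) + deriv (deriv β) z := by
    rw [dphi_eq hz0, (hasDerivAt_N h hz).deriv]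
    have hN' : N β z = 1 - z ^ 2 * deriv β z := rfl
    field_simp
    rw [hN']
    push_cast
    ring
  rw [e]
  exact h2

/-- the logarithmic derivative of `X` -/
theorem deriv_Xf (h : Ext β) {a : ℝ} {ω : ℂ} (hω : I + Complex.exp ω ≠ 0)
    (hz : zf ω ∈ ball (0 : ℂ) 1) (hz0 : zf ω ≠ 0)
    (hne : phi β (zf ω) - phi β (a : ℂ) ≠ 0) :
    deriv (Xf β a) ω = Xf β a ω * (zf ω + zd ω * (deriv (N β) (zf ω) / N β (zf ω) - 2 / zf ω)
      - 2 * Xf β a ω) := by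
  have h1 := hasDerivAt_zf hω
  have h2 := hasDerivAt_zd hω
  have h3 := (hasDerivAt_dphi h hz hz0).comp ω h1
  have h4 := (hasDerivAt_phi h.diff hz hz0).comp ω h1
  have h5 := (h2.mul h3).div ((h4.sub_const (phi β (a : ℂ))).const_mul 2)
    (mul_ne_zero two_ne_zero hne)
  have h6 : deriv (Xf β a) ω = _ := h5.deriv
  rw [h6]
  unfold Xf
  simp only [Function.comp_apply, Pi.mul_apply]
  have hd : phi β (zf ω) - phi β (a : ℂ) ≠ 0 := hne
  set Δ := phi β (zf ω) - phi β (a : ℂ) with hΔ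
  have h7 : -(zf ω ^ 2)⁻¹ + deriv β (zf ω) = dphi β (zf ω) := rfl
  try rw [h7]
  set D := deriv (N β) (zf ω) / N β (zf ω) - 2 / zf ω with hD
  field_simp

end beta

theorem frame_alg2 (Z y r₁ r₂ D : ℂ) (hZ : Z ≠ 0) (h1 : I + Z ≠ 0) (h2 : I - Z ≠ 0)
    (h3 : I - (Z - 2 * y * I) ≠ 0) (hr1 : r₁ ≠ 0) (hr2 : r₂ ≠ 0) :
    (I - Z) / (I + Z) / (r₁ / r₂) * (-((-I - (Z - 2 * y * I)) / (-I + (Z - 2 * y * I))) -
      (1 - (I - Z) / (I + Z) * ((-I - (Z - 2 * y * I)) / (-I + (Z - 2 * y * I)))) * D) =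
    r₂ / r₁ * ((I - Z) / (I - (Z - 2 * y * I))) *
      (((1 + -((Z - 2 * y * I) / Z)) * ((I - Z) / (I + Z) + -2 * I * Z / (Z + I) ^ 2 *
        (D - 2 / ((I - Z) / (I + Z))) - 1) - 1) + 2 * I * y / (Z + I) + 4 * I * y / (Z - I)) := by
  obtain ⟨u, rfl⟩ : ∃ u, Z = I * u := ⟨-I * Z, by
    rw [← mul_assoc, mul_neg, Complex.I_mul_I]; ring⟩
  have hI : I ≠ 0 := Complex.I_ne_zero
  have hu : u ≠ 0 := right_ne_zero_of_mul hZ
  have k1 : 1 + u ≠ 0 := by
    intro h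
    apply h1
    linear_combination I * h
  have k2 : 1 - u ≠ 0 := by
    intro h
    apply h2
    linear_combination I * h
  have k2' : u - 1 ≠ 0 := by
    intro h
    apply k2
    linear_combination -h
  have k3 : 1 - (u - 2 * y) ≠ 0 := by
    intro h
    apply h3
    linear_combination I * h
  have e1 : (I - I * u) / (I + I * u) = (1 - u) / (1 + u) := by
    field_simp
  have e2 : (-I - (I * u - 2 * y * I)) / (-I + (I * u - 2 * y * I)) =
      (1 + (u - 2 * y)) / (1 - (u - 2 * y)) := by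
    have k4 : -I + (I * u - 2 * y * I) ≠ 0 := by
      intro h
      apply h3
      linear_combination -h
    rw [div_eq_div_iff k4 k3]
    ring
  have e3 : (I - I * u) / (I - (I * u - 2 * y * I)) = (1 - u) / (1 - (u - 2 * y)) := by
    rw [div_eq_div_iff h3 k3]
    ring
  have e4 : (I * u - 2 * y * I) / (I * u) = (u - 2 * y) / u := by
    field_simp
  have e5 : -2 * I * (I * u) / (I * u + I) ^ 2 = -2 * u / (1 + u) ^ 2 := by
    rw [div_eq_div_iff (pow_ne_zero 2 (by rw [add_comm]; exact h1)) (pow_ne_zero 2 k1)]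
    ring
  have e6 : 2 * I * y / (I * u + I) = 2 * y / (1 + u) := by
    rw [div_eq_div_iff (by rw [add_comm]; exact h1) k1]
    ring
  have e7 : 4 * I * y / (I * u - I) = 4 * y / (u - 1) := by
    have k5 : I * u - I ≠ 0 := by
      intro h
      apply h2
      linear_combination -h
    rw [div_eq_div_iff k5 k2']
    ring
  rw [e1, e2, e3, e4, e5, e6, e7]
  have k6 : (1 - u) / (1 + u) ≠ 0 := div_ne_zero k2 k1
  have e8 : 4 * y / (u - 1) = -(4 * y) / (1 - u) := by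
    rw [div_eq_div_iff k2' k2]
    ring
  rw [e8]
  field_simp
  ring

theorem zf_mem {ξ η : ℝ} (h0 : 0 < η) (h1 : η < π) : zf (pt ξ η) ∈ ball (0 : ℂ) 1 := by
  rw [mem_ball_zero_iff, norm_zf]
  have a1 := addI_ne (ξ := ξ) h0 h1
  rw [div_lt_one (norm_pos_iff.2 a1)]
  have hy := im_pos (ξ := ξ) h0 h1
  set Z := Complex.exp (pt ξ η) with hZ
  have e1 : ‖I - Z‖ ^ 2 = Z.re ^ 2 + (1 - Z.im) ^ 2 := by
    rw [← Complex.normSq_eq_norm_sq, Complex.normSq_apply]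
    simp
    ring
  have e2 : ‖I + Z‖ ^ 2 = Z.re ^ 2 + (1 + Z.im) ^ 2 := by
    rw [← Complex.normSq_eq_norm_sq, Complex.normSq_apply]
    simp
    ring
  have e3 : ‖I - Z‖ ^ 2 < ‖I + Z‖ ^ 2 := by
    rw [e1, e2]
    nlinarith
  exact lt_of_pow_lt_pow_left₀ 2 (norm_nonneg _) e3

theorem zf_ne {ξ η : ℝ} (h0 : 0 < η) (h1 : η < π) (hξ : ξ < 0) : zf (pt ξ η) ≠ 0 :=
  div_ne_zero (subI_ne hξ) (addI_ne h0 h1)

theorem zf_ne_a {ξ η a : ℝ} (ha : 0 < a) (ha1 : a < 1) (h0 : 0 < η) (h1 : η < π)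
    (hξ1 : Real.log (tau a) < ξ) : zf (pt ξ η) ≠ (a : ℂ) := by
  intro h
  have a1 := addI_ne (ξ := ξ) h0 h1
  have hτ : 0 < tau a := div_pos (by linarith) (by linarith)
  unfold zf at h
  rw [div_eq_iff a1] at h
  have ha' : (1 + (a : ℂ)) ≠ 0 := by
    exact_mod_cast (by linarith : (1 + a : ℝ) ≠ 0)
  have h2 : Complex.exp (pt ξ η) = I * ((tau a : ℝ) : ℂ) := by
    unfold tau
    push_cast
    field_simp
    linear_combination -h
  have h3 := norm_exp_pt ξ η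
  rw [h2, norm_mul, Complex.norm_I, one_mul, Complex.norm_real, Real.norm_of_nonneg hτ.le] at h3
  have h4 : tau a < Real.exp ξ := (Real.log_lt_iff_lt_exp hτ).1 hξ1
  linarith

theorem E3a2 {β : ℂ → ℂ} (h : Ext β) {a : ℝ} (ha : 0 < a) (ha1 : a < 1) {ξ η : ℝ} (h0 : 0 < η)
    (h1 : η < π) (hξ : ξ < 0) (hξ1 : Real.log (tau a) < ξ) :
    mrad β (zf (pt ξ η)) = ph (Complex.exp (pt ξ η)) *
      (mX (Xf β a (pt ξ η)) (deriv (Xf β a) (pt ξ η)) (Real.sin η) (Real.cos η) +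
        2 * I * (Complex.exp (pt ξ η)).im / (Complex.exp (pt ξ η) + I) +
        4 * I * (Complex.exp (pt ξ η)).im / (Complex.exp (pt ξ η) - I)) := by
  have a1 := addI_ne (ξ := ξ) h0 h1
  have a2 := subI_ne (η := η) hξ
  have a3 := subconj_ne (ξ := ξ) h0 h1
  have hz := zf_mem (ξ := ξ) h0 h1
  have hz0 := zf_ne h0 h1 hξ
  have hza := zf_ne_a ha ha1 h0 h1 hξ1
  have haB : (a : ℂ) ∈ ball (0 : ℂ) 1 := by
    rw [mem_ball_zero_iff, Complex.norm_real, Real.norm_of_nonneg ha.le]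
    exact ha1
  have ha0 : (a : ℂ) ≠ 0 := Complex.ofReal_ne_zero.2 ha.ne'
  have hΔ : phi β (zf (pt ξ η)) - phi β (a : ℂ) ≠ 0 := fun h2 =>
    hza (h.inj _ _ hz haB hz0 ha0 (sub_eq_zero.1 h2))
  have hN : N β (zf (pt ξ η)) ≠ 0 := h.ne _ hz
  have hdphi : dphi β (zf (pt ξ η)) ≠ 0 := by
    rw [dphi_eq hz0]
    exact div_ne_zero (neg_ne_zero.2 hN) (pow_ne_zero 2 hz0)
  have hzd : zd (pt ξ η) ≠ 0 := by
    unfold zd
    refine div_ne_zero (mul_ne_zero (mul_ne_zero (by norm_num) Complex.I_ne_zero)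
      (Complex.exp_ne_zero _)) (pow_ne_zero 2 (by rwa [add_comm]))
  have hX : Xf β a (pt ξ η) ≠ 0 := by
    unfold Xf
    exact div_ne_zero (mul_ne_zero hzd hdphi) (mul_ne_zero two_ne_zero hΔ)
  have hdX := deriv_Xf h a1 hz hz0 hΔ
  have hq : deriv (Xf β a) (pt ξ η) / Xf β a (pt ξ η) = zf (pt ξ η) + zd (pt ξ η) *
      (deriv (N β) (zf (pt ξ η)) / N β (zf (pt ξ η)) - 2 / zf (pt ξ η)) -
      2 * Xf β a (pt ξ η) := by
    rw [hdX, mul_div_cancel_left₀ _ hX]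
  have hconj : conj (Complex.exp (pt ξ η)) = Complex.exp (pt ξ η) -
      2 * ((Complex.exp (pt ξ η)).im : ℂ) * I := by
    have := Complex.sub_conj (Complex.exp (pt ξ η))
    push_cast at this
    linear_combination -this
  have hnz : (1 : ℂ) - ((‖zf (pt ξ η)‖ : ℝ) : ℂ) ^ 2 =
      1 - zf (pt ξ η) * conj (zf (pt ξ η)) := by
    rw [Complex.mul_conj']
  unfold mrad mX
  rw [hq, e0_eq ξ η, hnz, norm_zf, Complex.ofReal_div]
  have e1 : 2 * Xf β a (pt ξ η) - 1 + (zf (pt ξ η) + zd (pt ξ η) *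
      (deriv (N β) (zf (pt ξ η)) / N β (zf (pt ξ η)) - 2 / zf (pt ξ η)) -
      2 * Xf β a (pt ξ η)) = zf (pt ξ η) + zd (pt ξ η) *
      (deriv (N β) (zf (pt ξ η)) / N β (zf (pt ξ η)) - 2 / zf (pt ξ η)) - 1 := by ring
  rw [e1]
  set D := deriv (N β) (zf (pt ξ η)) / N β (zf (pt ξ η)) with hD
  clear_value D
  rw [conj_zf]
  unfold ph zf zd
  rw [hconj] at a3 ⊢
  rw [Complex.ofReal_div]
  exact frame_alg2 _ _ _ _ D (Complex.exp_ne_zero _) a1 a2 a3
    (Complex.ofReal_ne_zero.2 (norm_ne_zero_iff.2 a2))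
    (Complex.ofReal_ne_zero.2 (norm_ne_zero_iff.2 a1))

end Pool.Agent.Helper97.EK
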